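import Mathlib
import Pool.Agent.TH407.PR.Defs
import Pool.Agent.TH634.VR.K
import Pool.Agent.H728R3.SR.A
import Pool.Agent.H147R3.PE.One
set_option autoImplicit false

/-! Fixed time bounds for the extension of a function of bounded variation on the line. -/

namespace Pool.Agent.TH228.PR

open Pool.Agent.TH407.PR Pool.Agent.H147R3.PE Pool.Agent.H728R3.SR
open MeasureTheory Set Complex Filter Topology
open scoped ENNReal NNReal Real

/-- the phase -/
noncomputable def ph (y t x : ℝ) : ℂ := cexp (-(I * ((x * y + x ^ 2 * t : ℝ) : ℂ)))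

lemma ph_cont (y t : ℝ) : Continuous (ph y t) := by
  unfold ph
  fun_prop

lemma ph_norm (y t x : ℝ) : ‖ph y t x‖ = 1 := by
  unfold ph
  have : -(I * ((x * y + x ^ 2 * t : ℝ) : ℂ)) = ((-(x * y + x ^ 2 * t) : ℝ) : ℂ) * I := by
    push_cast; ring
  rw [this, Complex.norm_exp_ofReal_mul_I]

lemma fr_all (τ a b : ℝ) (hτ : τ ≠ 0) (hab : a ≤ b) :
    ‖fr τ a b‖ ≤ 4 * (Real.sqrt |τ|)⁻¹ := by
  have hs : 0 ≤ (Real.sqrt |τ|)⁻¹ := by positivity
  rcases le_total 0 a with h | h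
  · have := fr_unif τ a b hτ h hab
    linarith
  · rcases le_total b 0 with h' | h'
    · have h1 := fr_unif τ (-b) (-a) hτ (by linarith) (by linarith)
      rw [fr_neg] at h1
      linarith
    · have h1 := fr_unif τ 0 b hτ le_rfl h'
      have h2 := fr_unif τ 0 (-a) hτ le_rfl (by linarith)
      have h3 : fr τ 0 (-a) = fr τ a 0 := by
        have := fr_neg τ a 0
        rw [neg_zero] at this
        exact this
      rw [h3] at h2
      have h4 := norm_add_le (fr τ a 0) (fr τ 0 b)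
      rw [fr_add] at h4
      linarith

lemma ph_int (y t a b : ℝ) (ht : t ≠ 0) :
    ‖∫ x in a..b, ph y t x‖ ≤ 4 * (Real.sqrt |t|)⁻¹ := by
  wlog hab : a ≤ b generalizing a b
  · rw [intervalIntegral.integral_symm, norm_neg]
    exact this b a (le_of_not_ge hab)
  have e1 : ∫ x in a..b, ph y t x =
      cexp (((y ^ 2 / (4 * t) : ℝ) : ℂ) * I) * fr (-t) (a + y / (2 * t)) (b + y / (2 * t)) := by
    unfold fr
    rw [← intervalIntegral.integral_comp_add_right, ← intervalIntegral.integral_const_mul]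
    apply intervalIntegral.integral_congr
    intro x _
    simp only [ph]
    rw [← Complex.exp_add]
    congr 1
    have : x * y + x ^ 2 * t = t * (x + y / (2 * t)) ^ 2 - y ^ 2 / (4 * t) := by
      field_simp
      ring
    rw [this]
    push_cast
    ring
  rw [e1, norm_mul, Complex.norm_exp_ofReal_mul_I, one_mul]
  have := fr_all (-t) (a + y / (2 * t)) (b + y / (2 * t)) (neg_ne_zero.2 ht) (by linarith)
  rwa [abs_neg] at this

lemma E1_eq (b : ℝ → ℂ) (y t : ℝ) : E1 b y t = ∫ x : ℝ, ph y t x * b x := rfl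

lemma E1_FT (b : ℝ → ℂ) (y t : ℝ) : E1 b y t = FT (ch t b) y := by
  unfold E1 FT ch
  apply integral_congr_ae
  filter_upwards with x
  rw [← mul_assoc, ← Complex.exp_add]
  congr 2
  push_cast
  ring

section
variable {b : ℝ → ℂ} {V : ℝ≥0}

lemma bd_of_var (hs : ∀ x, x ∉ Icc (-1 : ℝ) 1 → b x = 0) (hv : eVariationOn b univ ≤ V) (x : ℝ) :
    ‖b x‖ ≤ V := by
  have h1 := (eVariationOn.edist_le b (mem_univ x) (mem_univ 2)).trans hv
  have h2 : b 2 = 0 := hs 2 (by intro h; have := h.2; linarith)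
  rw [h2, edist_zero_right, enorm_le_coe] at h1
  exact h1

lemma bs_of_var (hm : Measurable b) (hs : ∀ x, x ∉ Icc (-1 : ℝ) 1 → b x = 0)
    (hv : eVariationOn b univ ≤ V) : BS V b :=
  ⟨hm, bd_of_var hs hv, fun z hz => hs z (fun h => by
    have := abs_le.2 h
    linarith)⟩

/-- the primitive of the phase -/
noncomputable def Fp (y t x : ℝ) : ℂ := ∫ s in (0 : ℝ)..x, ph y t s

lemma Fp_deriv (y t x : ℝ) : HasDerivAt (Fp y t) (ph y t x) x :=
  intervalIntegral.integral_hasDerivAt_right ((ph_cont y t).intervalIntegrable _ _)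
    ((ph_cont y t).stronglyMeasurableAtFilter _ _) (ph_cont y t).continuousAt

lemma Fp_cont (y t : ℝ) : Continuous (Fp y t) :=
  continuous_iff_continuousAt.2 fun x => (Fp_deriv y t x).continuousAt

lemma Fp_sub (y t x s : ℝ) : ‖Fp y t (x + s) - Fp y t x‖ ≤ |s| := by
  have h1 : Fp y t (x + s) - Fp y t x = ∫ u in x..(x + s), ph y t u := by
    unfold Fp
    rw [intervalIntegral.integral_interval_sub_left ((ph_cont y t).intervalIntegrable _ _)
      ((ph_cont y t).intervalIntegrable _ _)]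
  rw [h1]
  have h2 := intervalIntegral.norm_integral_le_of_norm_le_const (a := x) (b := x + s) (C := 1)
    (f := ph y t) (fun u _ => (ph_norm y t u).le)
  rw [one_mul, add_sub_cancel_left] at h2
  exact h2

lemma shift_bound (hb : BS V b) (hv : eVariationOn b univ ≤ V) (y t s : ℝ) (ht : t ≠ 0)
    (hs : s ≠ 0) :
    ‖∫ x : ℝ, (s : ℂ)⁻¹ * (Fp y t (x + s) - Fp y t x) * b x‖ ≤ V * (4 * (Real.sqrt |t|)⁻¹) := by
  have hFb : ∀ x, ‖Fp y t x‖ ≤ 4 * (Real.sqrt |t|)⁻¹ := fun x => ph_int y t 0 x ht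
  have hint : Integrable b := hb.int
  have hFm : AEStronglyMeasurable (Fp y t) volume := (Fp_cont y t).aestronglyMeasurable
  have i1 : Integrable fun x => Fp y t (x + s) * b x := by
    apply hint.bdd_mul (c := 4 * (Real.sqrt |t|)⁻¹)
    · exact ((Fp_cont y t).comp (continuous_id.add continuous_const)).aestronglyMeasurable
    · exact Eventually.of_forall fun x => hFb _
  have i2 : Integrable fun x => Fp y t x * b x := by
    apply hint.bdd_mul (c := 4 * (Real.sqrt |t|)⁻¹) hFm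
    exact Eventually.of_forall fun x => hFb _
  have hint' : Integrable fun x => b (x - s) := hint.comp_sub_right s
  have i3 : Integrable fun x => Fp y t x * b (x - s) := by
    apply hint'.bdd_mul (c := 4 * (Real.sqrt |t|)⁻¹) hFm
    exact Eventually.of_forall fun x => hFb _
  have e1 : ∫ x : ℝ, Fp y t (x + s) * b x = ∫ x : ℝ, Fp y t x * b (x - s) := by
    rw [← integral_add_right_eq_self (fun x => Fp y t x * b (x - s)) s]
    simp
  have e2 : ∫ x : ℝ, (s : ℂ)⁻¹ * (Fp y t (x + s) - Fp y t x) * b x =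
      (s : ℂ)⁻¹ * ∫ x : ℝ, Fp y t x * (b (x + (-s)) - b x) := by
    have : ∀ x, (s : ℂ)⁻¹ * (Fp y t (x + s) - Fp y t x) * b x =
        (s : ℂ)⁻¹ * (Fp y t (x + s) * b x - Fp y t x * b x) := fun x => by ring
    simp only [this]
    rw [integral_const_mul, integral_sub i1 i2, e1, ← integral_sub i3 i2]
    congr 2
    ext x
    rw [← sub_eq_add_neg]
    ring
  rw [e2, norm_mul, norm_inv]
  have hvm := Pool.Agent.TH634.VR.var_mod b V hb.meas hv (-s)
  have hF0 : (0 : ℝ) ≤ 4 * (Real.sqrt |t|)⁻¹ := by positivity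
  have h3 : ‖∫ x : ℝ, Fp y t x * (b (x + (-s)) - b x)‖ ≤ (4 * (Real.sqrt |t|)⁻¹) * (V * |s|) := by
    have h4 : ‖∫ x : ℝ, Fp y t x * (b (x + (-s)) - b x)‖ₑ ≤
        ENNReal.ofReal (4 * (Real.sqrt |t|)⁻¹) * (V * ENNReal.ofReal |s|) := by
      refine (enorm_integral_le_lintegral_enorm _).trans ?_
      calc ∫⁻ x : ℝ, ‖Fp y t x * (b (x + (-s)) - b x)‖ₑ ≤
          ∫⁻ x : ℝ, ENNReal.ofReal (4 * (Real.sqrt |t|)⁻¹) * ‖b (x + (-s)) - b x‖ₑ := by
            apply lintegral_mono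
            intro x
            simp only
            rw [enorm_mul]
            gcongr
            rw [← ofReal_norm]
            exact ENNReal.ofReal_le_ofReal (hFb x)
        _ = ENNReal.ofReal (4 * (Real.sqrt |t|)⁻¹) * ∫⁻ x : ℝ, ‖b (x + (-s)) - b x‖ₑ := by
            rw [lintegral_const_mul' _ _ ENNReal.ofReal_ne_top]
        _ ≤ _ := by
            gcongr
            rw [abs_neg] at hvm
            exact hvm
    have h5 : ENNReal.ofReal (4 * (Real.sqrt |t|)⁻¹) * (V * ENNReal.ofReal |s|) =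
        ENNReal.ofReal ((4 * (Real.sqrt |t|)⁻¹) * (V * |s|)) := by
      rw [ENNReal.ofReal_mul hF0, ENNReal.ofReal_mul (NNReal.coe_nonneg V),
        ENNReal.ofReal_coe_nnreal]
    rw [h5, ← ofReal_norm] at h4
    exact (ENNReal.ofReal_le_ofReal_iff (by positivity)).1 h4
  have hs' : 0 < |s| := abs_pos.2 hs
  have h6 : ‖(s : ℂ)‖⁻¹ = |s|⁻¹ := by
    rw [Complex.norm_real, Real.norm_eq_abs]
  rw [h6]
  calc |s|⁻¹ * ‖∫ x : ℝ, Fp y t x * (b (x + (-s)) - b x)‖ ≤
      |s|⁻¹ * ((4 * (Real.sqrt |t|)⁻¹) * (V * |s|)) := by gcongr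
    _ = V * (4 * (Real.sqrt |t|)⁻¹) := by
      field_simp

lemma E1_sup (hb : BS V b) (hv : eVariationOn b univ ≤ V) (y t : ℝ) (ht : t ≠ 0) :
    ‖E1 b y t‖ ≤ V * (4 * (Real.sqrt |t|)⁻¹) := by
  have hlim : Tendsto (fun s : ℝ => ∫ x : ℝ, (s : ℂ)⁻¹ * (Fp y t (x + s) - Fp y t x) * b x)
      (𝓝[≠] 0) (𝓝 (∫ x : ℝ, ph y t x * b x)) := by
    apply tendsto_integral_filter_of_dominated_convergence (fun x => ‖b x‖)
    · refine Eventually.of_forall fun s => ?_
      have h1 : Continuous fun x => (s : ℂ)⁻¹ * (Fp y t (x + s) - Fp y t x) := by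
        have := Fp_cont y t
        fun_prop
      exact h1.aestronglyMeasurable.mul hb.meas.aestronglyMeasurable
    · filter_upwards [self_mem_nhdsWithin] with s hs
      refine Eventually.of_forall fun x => ?_
      have hs' : 0 < |s| := abs_pos.2 hs
      rw [norm_mul, norm_mul, norm_inv, Complex.norm_real, Real.norm_eq_abs]
      have h2 := Fp_sub y t x s
      calc |s|⁻¹ * ‖Fp y t (x + s) - Fp y t x‖ * ‖b x‖ ≤ |s|⁻¹ * |s| * ‖b x‖ := by gcongr
        _ = ‖b x‖ := by rw [inv_mul_cancel₀ hs'.ne', one_mul]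
    · exact hb.int.norm
    · refine Eventually.of_forall fun x => ?_
      have h1 := (Fp_deriv y t x).tendsto_slope_zero
      refine Tendsto.mul_const _ ?_
      refine h1.congr fun s => ?_
      rw [Complex.real_smul, Complex.ofReal_inv]
  refine le_of_tendsto hlim.norm ?_
  filter_upwards [self_mem_nhdsWithin] with s hs
  exact shift_bound hb hv y t s ht hs

lemma E1_sup' (hb : BS V b) (hv : eVariationOn b univ ≤ V) (y t : ℝ) :
    ‖E1 b y t‖ ≤ 6 * V * (1 + |t|) ^ (-(1 / 2) : ℝ) := by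
  have hV : (0 : ℝ) ≤ V := V.2
  have h0 : 0 < 1 + |t| := by positivity
  have hr : (1 + |t|) ^ (-(1 / 2) : ℝ) = (Real.sqrt (1 + |t|))⁻¹ := by
    rw [Real.rpow_neg h0.le, Real.sqrt_eq_rpow]
  rw [hr]
  have hs0 : 0 < Real.sqrt (1 + |t|) := Real.sqrt_pos.2 h0
  rcases le_or_gt |t| 1 with h | h
  · have h1 : ‖E1 b y t‖ ≤ 2 * V := by
      rw [E1_FT]
      exact (hb.ch t).FT_bd y
    refine h1.trans ?_
    have h2 : Real.sqrt (1 + |t|) ≤ 2 := by
      rw [Real.sqrt_le_left (by norm_num)]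
      linarith
    rw [mul_assoc, mul_comm (V : ℝ), ← mul_assoc]
    apply mul_le_mul_of_nonneg_right _ hV
    rw [le_mul_inv_iff₀ hs0]
    linarith
  · have ht : t ≠ 0 := by
      rintro rfl
      rw [abs_zero] at h
      linarith
    have h1 := E1_sup hb hv y t ht
    refine h1.trans ?_
    have ht0 : 0 < |t| := abs_pos.2 ht
    have hs1 : 0 < Real.sqrt |t| := Real.sqrt_pos.2 ht0
    have h2 : 2 * Real.sqrt (1 + |t|) ≤ 3 * Real.sqrt |t| := by
      have h3 : Real.sqrt (1 + |t|) ≤ Real.sqrt (2 * |t|) := Real.sqrt_le_sqrt (by linarith)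
      have h4 : Real.sqrt (2 * |t|) = Real.sqrt 2 * Real.sqrt |t| := Real.sqrt_mul (by norm_num) _
      have h5 : Real.sqrt 2 ≤ 3 / 2 := by
        rw [Real.sqrt_le_left (by norm_num)]
        norm_num
      rw [h4] at h3
      nlinarith
    have h6 : 4 * (Real.sqrt |t|)⁻¹ ≤ 6 * (Real.sqrt (1 + |t|))⁻¹ := by
      rw [← div_eq_mul_inv, ← div_eq_mul_inv, div_le_div_iff₀ hs1 hs0]
      linarith
    calc (V : ℝ) * (4 * (Real.sqrt |t|)⁻¹) ≤ V * (6 * (Real.sqrt (1 + |t|))⁻¹) := by gcongr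
      _ = _ := by ring

lemma E1_two (hb : BS V b) (hs : ∀ x, x ∉ Icc (-1 : ℝ) 1 → b x = 0) (t : ℝ) :
    ∫⁻ y : ℝ, ‖E1 b y t‖ₑ ^ 2 ≤ ENNReal.ofReal (4 * π) * (V : ℝ≥0∞) ^ 2 := by
  simp only [E1_FT]
  rw [two_ch hb]
  have h1 : ∫⁻ z, ‖b z‖ₑ ^ 2 ≤ 2 * (V : ℝ≥0∞) ^ 2 := by
    calc ∫⁻ z, ‖b z‖ₑ ^ 2 ≤ ∫⁻ z, (Icc (-1 : ℝ) 1).indicator (fun _ => (V : ℝ≥0∞) ^ 2) z := by
          apply lintegral_mono
          intro z
          by_cases hz : z ∈ Icc (-1 : ℝ) 1
          · rw [indicator_of_mem hz]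
            simp only
            gcongr
            exact enorm_le_coe.2 (hb.bd z)
          · rw [indicator_of_notMem hz]
            simp [hs z hz]
      _ = _ := by
          rw [lintegral_indicator measurableSet_Icc, lintegral_const, Measure.restrict_apply_univ,
            Real.volume_Icc, mul_comm]
          norm_num
  calc ENNReal.ofReal (2 * π) * ∫⁻ z, ‖b z‖ₑ ^ 2 ≤
      ENNReal.ofReal (2 * π) * (2 * (V : ℝ≥0∞) ^ 2) := by gcongr
    _ = _ := by
      have h2 : ENNReal.ofReal (4 * π) = ENNReal.ofReal (2 * π) * ENNReal.ofReal 2 := by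
        rw [← ENNReal.ofReal_mul (by positivity)]
        congr 1
        ring
      rw [h2, ENNReal.ofReal_ofNat, mul_assoc]

end

theorem one_dim : OneDim := by
  intro q hq
  refine ⟨(Real.toNNReal (6 ^ (q - 2) * (4 * π))), ?_⟩
  intro b V hm hs hv t
  have hb := bs_of_var hm hs hv
  have hq2 : 0 ≤ q - 2 := by linarith
  set S : ℝ≥0∞ := ENNReal.ofReal (6 * V * (1 + |t|) ^ (-(1 / 2) : ℝ)) with hS
  have h0 : (0 : ℝ) < 1 + |t| := by positivity
  have hST : S ≠ ⊤ := ENNReal.ofReal_ne_top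
  have hpt : ∀ y, ‖E1 b y t‖ₑ ^ q ≤ S ^ (q - 2) * ‖E1 b y t‖ₑ ^ 2 := by
    intro y
    have e : ‖E1 b y t‖ₑ ^ q = ‖E1 b y t‖ₑ ^ (q - 2) * ‖E1 b y t‖ₑ ^ 2 := by
      rw [← ENNReal.rpow_natCast _ 2, ← ENNReal.rpow_add_of_nonneg _ _ hq2 (by norm_num)]
      congr 1
      push_cast
      ring
    rw [e]
    gcongr
    rw [← ofReal_norm]
    exact ENNReal.ofReal_le_ofReal (E1_sup' hb hv y t)
  calc ∫⁻ y : ℝ, ‖E1 b y t‖ₑ ^ q ≤ ∫⁻ y : ℝ, S ^ (q - 2) * ‖E1 b y t‖ₑ ^ 2 := lintegral_mono hpt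
    _ = S ^ (q - 2) * ∫⁻ y : ℝ, ‖E1 b y t‖ₑ ^ 2 := by
        rw [lintegral_const_mul' _ _ (ENNReal.rpow_ne_top_of_nonneg hq2 hST)]
    _ ≤ S ^ (q - 2) * (ENNReal.ofReal (4 * π) * (V : ℝ≥0∞) ^ 2) := by
        gcongr
        exact E1_two hb hs t
    _ = _ := by
        have h1 : S ^ (q - 2) = ENNReal.ofReal (6 ^ (q - 2)) * (V : ℝ≥0∞) ^ (q - 2) *
            ENNReal.ofReal ((1 + |t|) ^ (-((q - 2) / 2))) := by
          rw [hS, ENNReal.ofReal_mul (by positivity), ENNReal.ofReal_mul (by norm_num),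
            ENNReal.mul_rpow_of_nonneg _ _ hq2, ENNReal.mul_rpow_of_nonneg _ _ hq2,
            ENNReal.ofReal_coe_nnreal, ENNReal.ofReal_rpow_of_nonneg (by norm_num) hq2,
            ENNReal.ofReal_rpow_of_nonneg (by positivity) hq2, ← Real.rpow_mul h0.le]
          congr 3
          ring
        have h2 : (V : ℝ≥0∞) ^ q = (V : ℝ≥0∞) ^ (q - 2) * (V : ℝ≥0∞) ^ 2 := by
          rw [← ENNReal.rpow_natCast _ 2, ← ENNReal.rpow_add_of_nonneg _ _ hq2 (by norm_num)]
          congr 1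
          push_cast
          ring
        have h3 : ((Real.toNNReal (6 ^ (q - 2) * (4 * π)) : ℝ≥0) : ℝ≥0∞) =
            ENNReal.ofReal (6 ^ (q - 2)) * ENNReal.ofReal (4 * π) := by
          rw [← ENNReal.ofReal_mul (by positivity)]
          rfl
        rw [h1, h2, h3]
        ring

end Pool.Agent.TH228.PR
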